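import Pool.Agent.helper20.VVO.Spec

/-!
# Project VVO (MP_069684_lc): row PRS (size of a pruner)
-/

set_option autoImplicit false

open Filter Topology

namespace Pool.Agent.VVO

open Pool.Agent.PB Pool.Agent.ISO Pool.Agent.ISA

theorem PRS (hCIR : ISO.CIR_stmt) (hIPS : ISO.IPS_stmt) (hTBS : ISO.TBS_stmt) : PRS_stmt := by
  classical
  intro n w r t s f F a A T hf hF
  obtain ⟨hvar, hconst, hmono, hnot, hao, hall, hex⟩ := hCIR
  -- the table
  let f1 : BF (n + w) := fun z => f z && decide (lin A (fun j => z (Fin.natAdd n j)) ∈ T)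
  have hap : ∀ (x : Fin n → Bool) (y : Fin w → Bool), (fun j => Fin.append x y (Fin.natAdd n j)) = y := by
    intro x y
    funext j
    rw [Fin.append_right]
  have h1 : Size std f1 (s + 100 * 2 ^ r * (r + 1) * (w + 1) ^ 2 + 10) := by
    refine hTBS n w r s f f1 A T hf fun x y => ?_
    change (f (Fin.append x y) && decide (lin A (fun j => Fin.append x y (Fin.natAdd n j)) ∈ T)) = true ↔ _
    rw [hap, Bool.and_eq_true, decide_eq_true_iff]
  -- the affine conditions
  have hq : ∀ i : Fin t, Size std (fun z : Fin (n + w) → Bool => if (a i).2 = true then ip (a i).1 (fun j => z (Fin.natAdd n j)) else !(ip (a i).1 (fun j => z (Fin.natAdd n j)))) (20 * (w + 1) ^ 2 + 1) := by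
    intro i
    by_cases hi : (a i).2 = true
    · simp only [hi, if_true]
      exact hmono _ _ _ _ (hIPS.1 n w (a i).1) (by omega)
    · simp only [hi]
      exact hnot _ _ _ (hIPS.1 n w (a i).1)
  let g : BF (n + w) := fun z => decide (∀ i : Fin t, (if (a i).2 = true then ip (a i).1 (fun j => z (Fin.natAdd n j)) else !(ip (a i).1 (fun j => z (Fin.natAdd n j)))) = true)
  have hg : Size std g (Fintype.card (Fin t) * (20 * (w + 1) ^ 2 + 1 + 1) + 1) :=
    hall (Fin t) (n + w) _ _ g hq fun z => decide_eq_true_iff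
  rw [Fintype.card_fin] at hg
  have hgv : ∀ (x : Fin n → Bool) (y : Fin w → Bool), g (Fin.append x y) = true ↔ asat a y := by
    intro x y
    change decide (∀ i : Fin t, (if (a i).2 = true then ip (a i).1 (fun j => Fin.append x y (Fin.natAdd n j)) else !(ip (a i).1 (fun j => Fin.append x y (Fin.natAdd n j)))) = true) = true ↔ _
    rw [hap, decide_eq_true_iff]
    unfold asat
    refine forall_congr' fun i => ?_
    cases (a i).2 <;> cases ip (a i).1 y <;> simp
  have hFg : F = fun z => f1 z && g z := by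
    funext z
    have hz : z = Fin.append (fun i : Fin n => z (Fin.castAdd w i)) (fun j : Fin w => z (Fin.natAdd n j)) := by
      rw [Fin.append_castAdd_natAdd]
    rw [hz]
    generalize (fun i : Fin n => z (Fin.castAdd w i)) = x
    generalize (fun j : Fin w => z (Fin.natAdd n j)) = y
    rw [Bool.eq_iff_iff, hF x y, Bool.and_eq_true, hgv]
    change _ ↔ (f (Fin.append x y) && decide (lin A (fun j => Fin.append x y (Fin.natAdd n j)) ∈ T)) = true ∧ _
    rw [hap, Bool.and_eq_true, decide_eq_true_iff]
    tauto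
  rw [hFg]
  refine hmono _ _ _ _ (hao _ _ _ _ _ h1 hg).1 ?_
  have h2 : 1 ≤ (w + 1) ^ 2 := Nat.one_le_pow _ _ (by omega)
  have h3 : t * (20 * (w + 1) ^ 2 + 1 + 1) ≤ 100 * (t + 1) * (w + 1) ^ 2 := by nlinarith
  omega

end Pool.Agent.VVO
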