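import Pool.Agent.helper20.VVO.Spec
import Pool.Agent.helper40.ISO.LEX

/-!
# Project VVO (MP_069684_lc): row LXN (the lexicographically first witness)
-/

set_option autoImplicit false

open Filter Topology

namespace Pool.Agent.VVO

open Pool.Agent.PB Pool.Agent.ISO Pool.Agent.ISA

open Classical in
theorem LXN (hUNC : UNC_stmt) (hNCL : NCL_stmt) (hCIR : ISO.CIR_stmt) (hSEL : ISO.SEL_stmt) : LXN_stmt := by
  intro hPNP m A p hA hp w V c hV
  have hao := hCIR.2.2.2.2.1
  have hmono := hCIR.2.2.1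
  obtain ⟨hN1, hN2, -, hN4⟩ := hNCL
  obtain ⟨c1, -, hc1⟩ := LEX_poly (c + 2) (c + 6)
  obtain ⟨c2, hc2⟩ := hUNC hPNP c1
  obtain ⟨c', hc'1, hc'⟩ := LEX_poly (c + 2) (c + 1 + (c + 2) * c2 + 1 + 5)
  refine ⟨c', fun n => ?_⟩
  obtain ⟨hw, hs⟩ := hV n
  -- the NP property
  set f' : BF ((n + w n) + w n) := fun Z => V n (Fin.append (fun i : Fin n => Z (Fin.castAdd (w n) (Fin.castAdd (w n) i)))
      (fun j : Fin (w n) => Z (Fin.natAdd (n + w n) j))) &&
    decide (LEX_lt (fun j : Fin (w n) => Z (Fin.natAdd (n + w n) j)) (fun j : Fin (w n) => Z (Fin.castAdd (w n) (Fin.natAdd n j)))) with hf'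
  have hf's : Size std f' ((n + w n) ^ c1 + c1) := by
    have h1 := hSEL ((n + w n) + w n) (n + w n) (n ^ c + c) (V n)
      (fun i Z => Fin.append (fun i : Fin n => Z (Fin.castAdd (w n) (Fin.castAdd (w n) i)))
        (fun j : Fin (w n) => Z (Fin.natAdd (n + w n) j)) i) hs (by
        intro i
        refine Or.inr ?_
        refine Fin.addCases (fun i => ?_) (fun j => ?_) i
        · exact ⟨Fin.castAdd (w n) (Fin.castAdd (w n) i), by funext Z; rw [Fin.append_left]⟩
        · exact ⟨Fin.natAdd (n + w n) j, by funext Z; rw [Fin.append_right]⟩)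
    have h2 := LEX_size hCIR (N := (n + w n) + w n) (fun j : Fin (w n) => Fin.natAdd (n + w n) j)
      (fun j : Fin (w n) => Fin.castAdd (w n) (Fin.natAdd n j))
    refine hmono _ _ _ _ (hao _ _ _ _ _ h1 h2).1 ?_
    refine le_trans ?_ (hc1 (n + w n))
    set N := n + w n with hN
    have h3 : n ^ c + c ≤ (N + (c + 2)) ^ (c + 1) := LEX_base n c _ (by omega)
    set B := N + (c + 2) with hB
    have hB2 : 2 ≤ B := by omega
    have h4 : N + (w n * (6 * w n + 5) + 1) + 1 ≤ B ^ 5 := by
      have hwN : w n ≤ N := by omega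
      have h5 : N + (w n * (6 * w n + 5) + 1) + 1 ≤ 6 * (N + 1) ^ 2 := by nlinarith
      have h6 : 6 * (N + 1) ^ 2 ≤ 6 * B ^ 2 := Nat.mul_le_mul_left _ (Nat.pow_le_pow_left (by omega) 2)
      have h7 : 6 * B ^ 2 ≤ B ^ 5 := by
        have : 2 ^ 3 ≤ B ^ 3 := Nat.pow_le_pow_left hB2 3
        calc 6 * B ^ 2 ≤ B ^ 3 * B ^ 2 := Nat.mul_le_mul_right _ (by omega)
          _ = B ^ 5 := by ring
      exact h5.trans (h6.trans h7)
    have h5 : B ^ (c + 1) ≤ B ^ (c + 5) := Nat.pow_le_pow_right (by omega) (by omega)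
    have h6 : B ^ 5 ≤ B ^ (c + 5) := Nat.pow_le_pow_right (by omega) (by omega)
    exact LEX_two hB2 (by omega)
  have hww : w n ≤ (n + w n) ^ c1 + c1 := by
    refine le_trans ?_ (hc1 (n + w n))
    calc w n ≤ (n + w n + (c + 2)) ^ 1 := by rw [pow_one]; omega
      _ ≤ _ := Nat.pow_le_pow_right (by omega) (by omega)
  set F : BF (n + w n) := fun z => decide (∀ y' : Fin (w n) → Bool, f' (Fin.append z y') = false) with hF
  have hFs : NSize F ((n + w n) ^ c2 + c2) := hc2 (n + w n) (w n) f' F hww hf's (fun x => by rw [hF]; exact decide_eq_true_iff)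
  -- the value of `F`
  have hFv : ∀ (x : Fin n → Bool) (y : Fin (w n) → Bool), F (Fin.append x y) = true ↔
      ∀ y' : Fin (w n) → Bool, V n (Fin.append x y') = true → ¬ LEX_lt y' y := by
    intro x y
    rw [hF]
    simp only [decide_eq_true_iff]
    refine forall_congr' fun y' => ?_
    rw [← Bool.not_eq_true, hf']
    simp only [Bool.and_eq_true, decide_eq_true_iff]
    have e1 : (fun i : Fin n => Fin.append (Fin.append x y) y' (Fin.castAdd (w n) (Fin.castAdd (w n) i))) = x := by
      funext i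
      rw [Fin.append_left, Fin.append_left]
    have e2 : (fun j : Fin (w n) => Fin.append (Fin.append x y) y' (Fin.natAdd (n + w n) j)) = y' := by
      funext j
      rw [Fin.append_right]
    have e3 : (fun j : Fin (w n) => Fin.append (Fin.append x y) y' (Fin.castAdd (w n) (Fin.natAdd n j))) = y := by
      funext j
      rw [Fin.append_left, Fin.append_right]
    rw [e1, e2, e3, not_and]
  set W : BF (n + w n) := fun z => V n z && F z with hW
  have hWs : NSize W (n ^ c' + c') := by
    have g1 : NSize (V n) (n ^ c + c + ((n + w n) ^ c2 + c2)) := hN2 _ _ _ _ (hN1 _ _ _ hs) (by omega)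
    have g2 : NSize F (n ^ c + c + ((n + w n) ^ c2 + c2)) := hN2 _ _ _ _ hFs (by omega)
    refine hN2 _ _ _ _ (hN4 _ _ _ _ W g1 g2 fun x => by rw [hW]; simp only [Bool.and_eq_true]) ?_
    refine le_trans ?_ (hc' n)
    have h3 : n ^ c + c ≤ (n + (c + 2)) ^ (c + 1) := LEX_base n c _ (by omega)
    set B := n + (c + 2) with hB
    have hB2 : 2 ≤ B := by omega
    have h4 : n + w n ≤ B ^ (c + 2) := by
      refine LEX_two hB2 ?_
      have h5 : n ≤ B ^ (c + 1) := by
        calc n ≤ B ^ 1 := by rw [pow_one]; omega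
          _ ≤ _ := Nat.pow_le_pow_right (by omega) (by omega)
      omega
    have h5 : (n + w n) ^ c2 ≤ B ^ ((c + 2) * c2) := by
      rw [pow_mul]
      exact Nat.pow_le_pow_left h4 c2
    have h6 : c2 ≤ B ^ ((c + 2) * c2) := by
      calc c2 ≤ B ^ c2 := (Nat.lt_pow_self (by omega)).le
        _ ≤ _ := Nat.pow_le_pow_right (by omega) (by nlinarith)
    set K := c + 1 + (c + 2) * c2 + 1 with hK
    have h7 : B ^ (c + 1) ≤ B ^ K := Nat.pow_le_pow_right (by omega) (by omega)
    have h7' : B ^ (c + 2) ≤ B ^ K := Nat.pow_le_pow_right (by omega) (by omega)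
    have h8 : 2 * B ^ ((c + 2) * c2) ≤ B ^ K := by
      have : B ^ ((c + 2) * c2 + 1) ≤ B ^ K := Nat.pow_le_pow_right (by omega) (by omega)
      refine le_trans ?_ this
      rw [pow_succ]
      nlinarith [Nat.zero_le (B ^ ((c + 2) * c2))]
    have h9 : 2 ≤ B ^ K := by
      calc 2 ≤ B ^ 1 := by rw [pow_one]; omega
        _ ≤ _ := Nat.pow_le_pow_right (by omega) (by omega)
    have h10 : B ^ K * 32 ≤ B ^ (K + 5) := by
      rw [pow_add B K 5]
      exact Nat.mul_le_mul_left _ (by
        calc 32 = 2 ^ 5 := by norm_num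
          _ ≤ B ^ 5 := Nat.pow_le_pow_left hB2 5)
    omega
  refine ⟨1, fun _ => W, le_rfl, by omega, fun _ => hWs, ?_, ?_⟩
  · intro _ z hz
    rw [hW] at hz
    simp only [Bool.and_eq_true] at hz
    exact hz.1
  · intro x hx _
    have hne : (Finset.univ.filter fun y : Fin (w n) → Bool => V n (Fin.append x y) = true).Nonempty :=
      Finset.card_pos.1 hx
    obtain ⟨y0, hy0, hmin⟩ := Finset.exists_min_image _ (fun y => toLex y) hne
    have hy0' : V n (Fin.append x y0) = true := (Finset.mem_filter.1 hy0).2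
    have hwit : wit W x = 1 := by
      unfold wit
      rw [Finset.card_eq_one]
      refine ⟨y0, ?_⟩
      ext y
      simp only [Finset.mem_filter, Finset.mem_univ, true_and, Finset.mem_singleton]
      rw [hW]
      simp only [Bool.and_eq_true]
      constructor
      · rintro ⟨h1, h2⟩
        have h3 : ¬ LEX_lt y0 y := (hFv x y).1 h2 y0 hy0'
        have h4 : toLex y0 ≤ toLex y := hmin y (Finset.mem_filter.2 ⟨Finset.mem_univ _, h1⟩)
        have h5 : toLex y ≤ toLex y0 := not_lt.1 h3
        exact toLex.injective (le_antisymm h5 h4)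
      · rintro rfl
        refine ⟨hy0', (hFv x y).2 fun y' h2 h3 => ?_⟩
        have h4 : toLex y ≤ toLex y' := hmin y' (Finset.mem_filter.2 ⟨Finset.mem_univ _, h2⟩)
        exact absurd h3 (not_lt.2 h4)
    have h1 : (Finset.univ.filter fun _ : Fin 1 => wit W x ∈ A n) = Finset.univ := by
      refine Finset.filter_true_of_mem fun _ _ => ?_
      rw [hwit]
      exact hA n
    have h2 : ((Finset.univ.filter fun _ : Fin 1 => wit W x ∈ A n).card : ℝ) = 1 := by
      rw [h1]
      simp
    rw [Nat.cast_one, mul_one]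
    exact (hp n).trans h2.ge

end Pool.Agent.VVO
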