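import Pool.Agent.helper20.VVO.Spec

/-!
# Project VVO (MP_069684_lc): row UNC (uniform bound for the complements of NP properties)
-/

set_option autoImplicit false

open Filter Topology

namespace Pool.Agent.VVO

open Pool.Agent.PB Pool.Agent.ISO Pool.Agent.ISA

/-- every function has a circuit -/
theorem UNC_ex (hCIR : ISO.CIR_stmt) (n : ℕ) (F : BF n) : ∃ s, Size std F s := by
  classical
  obtain ⟨hvar, hconst, hmono, hnot, hao, hall, hex⟩ := hCIR
  have h1 : ∀ x0 : Fin n → Bool, Size std (fun x : Fin n → Bool => decide (x = x0)) (Fintype.card (Fin n) * (1 + 1) + 1) := by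
    intro x0
    refine hall (Fin n) n 1 (fun i x => if x0 i = true then x i else !(x i)) _ ?_ ?_
    · intro i
      by_cases hi : x0 i = true
      · simp only [hi, if_true]
        exact hmono n 0 1 _ (hvar n i) (by omega)
      · simp only [hi]
        exact hnot n 0 _ (hvar n i)
    · intro x
      rw [decide_eq_true_iff, funext_iff]
      refine forall_congr' fun i => ?_
      cases x0 i <;> cases x i <;> simp
  refine ⟨_, hex {x0 : Fin n → Bool // F x0 = true} n _ (fun x0 x => decide (x = x0.1)) F (fun x0 => h1 x0.1) ?_⟩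
  intro x
  constructor
  · intro h
    exact ⟨⟨x, h⟩, by simp⟩
  · rintro ⟨⟨x0, h0⟩, h⟩
    have : x = x0 := of_decide_eq_true h
    rw [this]
    exact h0

theorem UNC (hNCL : NCL_stmt) (hCIR : ISO.CIR_stmt) : UNC_stmt := by
  classical
  intro hPN c
  obtain ⟨hN1, hN2, -, -⟩ := hNCL
  let S : (n : ℕ) → Set (BF n) := fun n => {F | ∃ w : ℕ, w ≤ n ^ c + c ∧ ∃ f : BF (n + w), Size std f (n ^ c + c) ∧
    ∀ x, F x = true ↔ ∀ y, f (Fin.append x y) = false}
  let sz : (n : ℕ) → BF n → ℕ := fun n F => sInf {s | NSize F s}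
  have hsz : ∀ (n : ℕ) (F : BF n), NSize F (sz n F) := fun n F => Nat.sInf_mem (by
    obtain ⟨s, hs⟩ := UNC_ex hCIR n F
    exact ⟨s, hN1 n s F hs⟩)
  have hc : ∀ n : ℕ, 1 ≤ n ^ c + c := by
    intro n
    rcases Nat.eq_zero_or_pos c with h | h
    · subst h
      simp
    · omega
  have hne : ∀ n, (S n).Nonempty := fun n =>
    ⟨fun _ => true, 0, Nat.zero_le _, fun _ => false, hCIR.2.2.1 _ _ _ _ (hCIR.2.1 _ false) (hc n), fun x => by simp⟩
  have hmax : ∀ n, ∃ F ∈ S n, ∀ F' ∈ S n, sz n F' ≤ sz n F := fun n =>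
    Set.exists_max_image (S n) (sz n) (Set.toFinite _) (hne n)
  choose A hA hAmax using hmax
  obtain ⟨c', hc'⟩ := hPN (PB.compl A) ⟨c, fun n => by
    obtain ⟨w, h1, f, h2, h3⟩ := hA n
    refine ⟨w, h1, f, h2, fun x => ?_⟩
    have h4 : PB.compl A n x = true ↔ ¬ (A n x = true) := by
      unfold PB.compl
      cases A n x <;> simp
    rw [h4, h3 x]
    push Not
    refine exists_congr fun y => ?_
    cases f (Fin.append x y) <;> simp⟩
  refine ⟨c', fun n w f F h1 h2 h3 => ?_⟩
  have h4 : F ∈ S n := ⟨w, h1, f, h2, h3⟩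
  have h5 : sz n (A n) ≤ n ^ c' + c' := by
    refine Nat.sInf_le ?_
    obtain ⟨v, hv, g, hg, hx⟩ := hc' n
    refine ⟨v, hv, g, hg, fun x => ?_⟩
    rw [← hx x]
    unfold PB.compl
    simp
  exact hN2 n _ _ F (hsz n F) ((hAmax n F h4).trans h5)

end Pool.Agent.VVO
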